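import Pool.Agent.Q94.EXF

/-!
# Small bounded solutions of `A u' = Q(u)` converge exponentially, pointwise

For all data satisfying (H1), (H3), (H4), (H5) there are `ε, β > 0` such that every solution on
`[0, ∞)` with `ess sup ‖u - u⁺‖ ≤ ε` converges to an equilibrium `v` with
`‖u(τ) - v‖ ≤ C e^{-βτ}` for almost every `τ`.  The limit is `u⁺` exactly when the conserved
quantity `P A (u - u⁺)` vanishes (`P` the projection on the complement of `V`), in particular
whenever `u - u⁺` is square integrable.

Proof: for the differences `w_h = u(· + h) - u`, whose equation is linear with small coefficients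
and for which `P A w_h = 0`, the energy `⟨A w_h, w_h⟩` is nonincreasing and controls the tail
`F_h(τ) = ∫_τ^∞ ‖w_h‖²`, which therefore decays exponentially, uniformly in `h`.  As
`‖A w_h‖ ≤ C h`, also `F_h(τ) ≤ C h F_h(τ - 1)^{1/2}`; two steps give `F_h(τ) ≤ C h^{3/2} e^{-bτ}`,
and an exponent larger than `1` allows to sum the differences of the dyadic averages of `u`.
-/

set_option autoImplicit false

open Set Filter Topology MeasureTheory Q94.EX
open scoped RealInnerProductSpace

namespace Pool.Agent.Results.MP_7e3c50_an.Converges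

/-- Pointwise exponential convergence of all `L^∞`-small solutions. -/
theorem result {H : Type*} [NormedAddCommGroup H] [InnerProductSpace ℝ H] [CompleteSpace H]
    (D : Data H) : ∃ ε β : ℝ, 0 < ε ∧ 0 < β ∧ ∀ u : ℝ → H, IsSolution D u →
    (∀ᵐ t ∂(volume.restrict (Ici 0)), ‖u t - D.up‖ ≤ ε) →
    ∃ (v : H) (C : ℝ), D.B v v = 0 ∧
      (∀ᵐ t ∂(volume.restrict (Ici 0)), ‖u t - v‖ ≤ C * Real.exp (-β * t)) ∧
      (v = D.up ↔ D.A (u 0 - D.up) ∈ D.V) ∧
      (MemLp (fun t => u t - D.up) 2 (volume.restrict (Ici 0)) → v = D.up) :=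
  main D

end Pool.Agent.Results.MP_7e3c50_an.Converges
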