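import Pool.Agent.Q94.EXG
import Pool.Agent.Q94.EXB

/-!
# Small solutions which do not decay

The zero set of `Q` near `u⁺` is a manifold modelled on the nonzero space orthogonal to `V`, so for
all data and every `ε > 0` there is a constant solution `u = v` with `0 < ‖v - u⁺‖ ≤ ε`.  Read
literally, the statement of Q1 (which does not ask that `u` tends to `u⁺` in any sense) therefore
fails for all data.
-/

set_option autoImplicit false

open Set Filter Topology MeasureTheory Q94.EX
open scoped RealInnerProductSpace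

namespace Pool.Agent.Results.MP_7e3c50_an.NearbyEquilibria

/-- Data satisfying the hypotheses exist (on the Euclidean plane). -/
theorem data_exist : Nonempty (Data ℂ) := ⟨planeData⟩

/-- For all data and every `ε > 0` there is a solution with `ess sup ‖u - u⁺‖ ≤ ε` that does not
decay exponentially. -/
theorem result {H : Type*} [NormedAddCommGroup H] [InnerProductSpace ℝ H] [CompleteSpace H]
    (D : Data H) (ε : ℝ) (hε : 0 < ε) : ∃ u : ℝ → H, IsSolution D u ∧
      (∀ᵐ t ∂(volume.restrict (Ici 0)), ‖u t - D.up‖ ≤ ε) ∧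
      ∀ C β : ℝ, 0 < β →
        ¬ ∀ᵐ t ∂(volume.restrict (Ici 0)), ‖u t - D.up‖ ≤ C * Real.exp (-β * t) := by
  obtain ⟨v, hv, hvε, hQ⟩ := exists_equilibrium D hε
  refine ⟨fun _ => v, const_solution D hQ, Eventually.of_forall fun _ => hvε, ?_⟩
  intro C β hβ h
  have h' := (ae_restrict_iff' measurableSet_Ici).mp h
  have hpos : 0 < ‖v - D.up‖ := norm_pos_iff.mpr (sub_ne_zero.mpr hv)
  have hlim : Tendsto (fun t : ℝ => C * Real.exp (-β * t)) atTop (𝓝 0) := by
    have h1 : Tendsto (fun t : ℝ => Real.exp (-β * t)) atTop (𝓝 0) := by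
      refine Real.tendsto_exp_atBot.comp ?_
      exact Tendsto.const_mul_atTop_of_neg (by linarith) tendsto_id
    simpa using h1.const_mul C
  obtain ⟨T, hT⟩ := eventually_atTop.mp (hlim.eventually (gt_mem_nhds hpos))
  obtain ⟨t, ht, htk⟩ := ae_exists_ge h' (max T 0)
  have h1 := htk (show t ∈ Ici (0 : ℝ) from (le_max_right _ _).trans ht)
  have h2 := hT t ((le_max_left _ _).trans ht)
  linarith

end Pool.Agent.Results.MP_7e3c50_an.NearbyEquilibria
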